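import Pool.Agent.Work.MP_db9399_all_helper34.VIZ
import Pool.Agent.Work.MP_db9399_co.Konig

/-!
# LEMU: edge colourings of a bipartite graph plus vertices whose neighbours have small degree

If `G` has degrees at most `κ`, the sets `X`, `Y` are independent and all neighbours of the
vertices outside `X ∪ Y` have degree at most `κ - 1`, then `κ` colours suffice for the edges of `G`
(Koenig's theorem on `X ∪ Y`, then the other vertices are added one after the other with the
argument of Vizing's theorem).
-/

set_option autoImplicit false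

namespace Pool.Agent.Work.MP_db9399_lu

open Finset Classical
open Pool.Agent.Work.MP_db9399_all (nb)
open Pool.Agent.Work.MP_db9399_all.VIZ (EC del main_ind mem_nb)

universe u

/-- LEMU (from `konig` and VIZ, `main_ind`). -/
def Stmt_LEMU : Prop :=
  ∀ {V : Type u} [Fintype V] (G : SimpleGraph V) (κ : ℕ) (X Y : Finset V),
    Disjoint X Y → (∀ v, (nb G v).card ≤ κ) →
    (∀ v ∈ X, ∀ w ∈ X, ¬ G.Adj v w) → (∀ v ∈ Y, ∀ w ∈ Y, ¬ G.Adj v w) →
    (∀ v w, G.Adj v w → v ∉ X → v ∉ Y → (nb G w).card + 1 ≤ κ) →
    ∃ t : V → V → ℕ, (∀ v w, t v w = t w v) ∧ (∀ v w, G.Adj v w → t v w < κ) ∧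
      ∀ v, Set.InjOn (t v) (nb G v : Set V)

theorem stmt_LEMU : Stmt_LEMU.{u} := by
  intro V _ G κ X Y hXY hdeg hX hY hB
  let GS : Finset V → SimpleGraph V := fun S =>
    { Adj := fun x y => G.Adj x y ∧ x ∈ S ∧ y ∈ S
      symm := ⟨fun _ _ h => ⟨h.1.symm, h.2.2, h.2.1⟩⟩
      loopless := ⟨fun x h => G.loopless.irrefl x h.1⟩ }
  have hle : ∀ S w, (nb (GS S) w).card ≤ (nb G w).card := by
    intro S w
    refine Finset.card_le_card ?_
    intro y hy
    exact mem_nb.mpr (mem_nb.mp hy).1
  have hdel : ∀ S : Finset V, ∀ v, v ∉ S → del (GS (insert v S)) v = GS S := by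
    intro S v hv
    ext x y
    simp only [del, GS, Finset.mem_insert]
    constructor
    · rintro ⟨⟨h1, h2, h3⟩, h4, h5⟩
      exact ⟨h1, h2.resolve_left h4, h3.resolve_left h5⟩
    · rintro ⟨h1, h2, h3⟩
      refine ⟨⟨h1, Or.inr h2, Or.inr h3⟩, ?_, ?_⟩
      · rintro rfl; exact hv h2
      · rintro rfl; exact hv h3
  -- the bipartite part
  have key1 : ∃ t, EC (GS (X ∪ Y)) (range κ) t := by
    obtain ⟨S, hS⟩ : ∃ S : Finset (V × V), S =
        (X ×ˢ Y).filter (fun p => G.Adj p.1 p.2) := ⟨_, rfl⟩
    have hmS : ∀ x y, (x, y) ∈ S ↔ (x ∈ X ∧ y ∈ Y) ∧ G.Adj x y := by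
      intro x y
      rw [hS, Finset.mem_filter, Finset.mem_product]
    obtain ⟨f, hf1, hf2⟩ := MP_db9399_co.konig (E := V × V) (fun e => e.1) (fun e => e.2) κ S
      (by
        intro v
        refine le_trans ?_ (hdeg v)
        refine Finset.card_le_card_of_injOn (fun e => e.2) ?_ ?_
        · rintro ⟨x, y⟩ he
          obtain ⟨h1, h2⟩ := Finset.mem_filter.mp (Finset.mem_coe.mp he)
          have h2' : x = v := h2
          have h3 := ((hmS x y).mp h1).2
          rw [h2'] at h3
          exact Finset.mem_coe.mpr (mem_nb.mpr h3)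
        · rintro ⟨x, y⟩ he ⟨x', y'⟩ he' h
          have h2 : x = v := (Finset.mem_filter.mp (Finset.mem_coe.mp he)).2
          have h2' : x' = v := (Finset.mem_filter.mp (Finset.mem_coe.mp he')).2
          have h3 : y = y' := h
          rw [h2, h2', h3])
      (by
        intro v
        refine le_trans ?_ (hdeg v)
        refine Finset.card_le_card_of_injOn (fun e => e.1) ?_ ?_
        · rintro ⟨x, y⟩ he
          obtain ⟨h1, h2⟩ := Finset.mem_filter.mp (Finset.mem_coe.mp he)
          have h2' : y = v := h2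
          have h3 := ((hmS x y).mp h1).2.symm
          rw [h2'] at h3
          exact Finset.mem_coe.mpr (mem_nb.mpr h3)
        · rintro ⟨x, y⟩ he ⟨x', y'⟩ he' h
          have h2 : y = v := (Finset.mem_filter.mp (Finset.mem_coe.mp he)).2
          have h2' : y' = v := (Finset.mem_filter.mp (Finset.mem_coe.mp he')).2
          have h3 : x = x' := h
          rw [h2, h2', h3])
    -- every edge of `GS (X ∪ Y)` joins `X` and `Y`
    have hedge : ∀ x y, (GS (X ∪ Y)).Adj x y → (x ∈ X ∧ y ∈ Y) ∨ (x ∈ Y ∧ y ∈ X) := by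
      intro x y h
      have h1 : G.Adj x y := h.1
      rcases Finset.mem_union.mp h.2.1 with hx | hx
      · rcases Finset.mem_union.mp h.2.2 with hy | hy
        · exact absurd h1 (hX x hx y hy)
        · exact Or.inl ⟨hx, hy⟩
      · rcases Finset.mem_union.mp h.2.2 with hy | hy
        · exact Or.inr ⟨hx, hy⟩
        · exact absurd h1 (hY x hx y hy)
    have hnX : ∀ x, x ∈ Y → x ∉ X := fun x hx hx' => Finset.disjoint_left.mp hXY hx' hx
    refine ⟨fun x y => if x ∈ X then f (x, y) else f (y, x), ?_, ?_, ?_⟩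
    · intro x y h
      rcases hedge x y h with ⟨hx, hy⟩ | ⟨hx, hy⟩
      · simp only [if_pos hx, if_neg (hnX y hy)]
      · simp only [if_pos hy, if_neg (hnX x hx)]
    · intro x y h
      rw [Finset.mem_range]
      rcases hedge x y h with ⟨hx, hy⟩ | ⟨hx, hy⟩
      · simp only [if_pos hx]
        exact hf1 _ ((hmS x y).mpr ⟨⟨hx, hy⟩, h.1⟩)
      · simp only [if_neg (hnX x hx)]
        exact hf1 _ ((hmS y x).mpr ⟨⟨hy, hx⟩, h.1.symm⟩)
    · intro x y hy z hz hyz
      have hy1 : (GS (X ∪ Y)).Adj x y := mem_nb.mp hy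
      have hz1 : (GS (X ∪ Y)).Adj x z := mem_nb.mp hz
      by_contra hne
      by_cases hx : x ∈ X
      · simp only [if_pos hx] at hyz
        have hy2 : y ∈ Y := by
          rcases hedge x y hy1 with h | h
          · exact h.2
          · exact absurd hx (hnX x h.1)
        have hz2 : z ∈ Y := by
          rcases hedge x z hz1 with h | h
          · exact h.2
          · exact absurd hx (hnX x h.1)
        refine hf2 (x, y) ((hmS x y).mpr ⟨⟨hx, hy2⟩, hy1.1⟩) (x, z)
          ((hmS x z).mpr ⟨⟨hx, hz2⟩, hz1.1⟩) ?_ (Or.inl rfl) hyz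
        intro h
        exact hne (congrArg Prod.snd h)
      · simp only [if_neg hx] at hyz
        have hy2 : x ∈ Y ∧ y ∈ X := by
          rcases hedge x y hy1 with h | h
          · exact absurd h.1 hx
          · exact h
        have hz2 : z ∈ X := by
          rcases hedge x z hz1 with h | h
          · exact absurd h.1 hx
          · exact h.2
        refine hf2 (y, x) ((hmS y x).mpr ⟨⟨hy2.2, hy2.1⟩, hy1.1.symm⟩) (z, x)
          ((hmS z x).mpr ⟨⟨hz2, hy2.1⟩, hz1.1.symm⟩) ?_ (Or.inr rfl) hyz
        intro h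
        exact hne (congrArg Prod.fst h)
  -- the other vertices
  have key2 : ∀ T : Finset V, Disjoint T (X ∪ Y) → ∃ t, EC (GS ((X ∪ Y) ∪ T)) (range κ) t := by
    intro T
    induction T using Finset.induction_on with
    | empty =>
      intro _
      rw [Finset.union_empty]
      exact key1
    | insert v T hv ih =>
      intro hT
      have hvT : v ∉ X ∪ Y := Finset.disjoint_left.mp hT (Finset.mem_insert_self _ _)
      rw [Finset.union_insert]
      have hvn : v ∉ (X ∪ Y) ∪ T := by
        rw [Finset.mem_union]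
        rintro (h | h)
        · exact hvT h
        · exact hv h
      apply main_ind κ (range κ) (by simp) (GS (insert v ((X ∪ Y) ∪ T))) v v
      · exact le_trans (hle _ _) (hdeg v)
      · intro w _
        exact le_trans (hle _ _) (hdeg w)
      · intro w hw _
        have hadj : G.Adj v w := (mem_nb.mp hw).1
        have h1 := hB v w hadj (fun h => hvT (Finset.mem_union_left _ h))
          (fun h => hvT (Finset.mem_union_right _ h))
        have h2 := hle (insert v ((X ∪ Y) ∪ T)) w
        omega
      · rw [hdel _ v hvn]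
        exact ih (Finset.disjoint_of_subset_left (Finset.subset_insert _ _) hT)
  obtain ⟨t, ht⟩ := key2 (univ \ (X ∪ Y)) Finset.sdiff_disjoint
  have hU : GS ((X ∪ Y) ∪ (univ \ (X ∪ Y))) = G := by
    ext x y
    simp [GS]
  rw [hU] at ht
  refine ⟨fun v w => if G.Adj v w then t v w else 0, ?_, ?_, ?_⟩
  · intro v w
    by_cases h : G.Adj v w
    · simp only [if_pos h, if_pos h.symm]
      exact ht.sym v w h
    · simp only [if_neg h, if_neg (fun h' : G.Adj w v => h h'.symm)]
  · intro v w h
    simp only [if_pos h]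
    exact Finset.mem_range.mp (ht.mem v w h)
  · intro v y hy z hz hyz
    have hy' : G.Adj v y := mem_nb.mp hy
    have hz' : G.Adj v z := mem_nb.mp hz
    simp only [if_pos hy', if_pos hz'] at hyz
    exact ht.inj v hy hz hyz

end Pool.Agent.Work.MP_db9399_lu
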